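import Pool.Agent.H619R2.PM.Final

/-!
# The partition median problem is NP-hard

Loebl's problem: given partitions `X₁, …, X_k` of a finite set `S`, find a partition `Y` which
minimises `∑ d(X_i, Y)`, where `d(X, Y)` is the least number of operations (split a class into two,
join two classes) which turn `X` into `Y`.

We show that the problem is NP-hard: the decision version (is there `Y` with `∑ d(X_i, Y) ≤ t`) is
NP-hard, and a polynomial-time algorithm which outputs a minimiser gives `P = NP`.

The reduction is from 3SAT.  Each variable `x` owns four elements `a, b, c, d`; many copies of the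
partition `P₁` with the classes `ab`, `cd` and of the partition `P₂` with the classes `bc`, `da` force
`Y` to have, in each group, the classes `ab|cd` or `bc|da` or `abcd`; copies of the partition into
singletons exclude the last possibility.  For each clause and each of the seven ways of satisfying
it there is a partition with three classes of size two, which form a triangle with the classes of
`Y` if and only if the clause is satisfied in that way.
-/

namespace Pool.Agent.Results.MP_3853ed_lc.MedianHard

open Pool.Agent.NPC Pool.Agent.H619R2.PM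

/-- `Xs` is a nonempty list of (label vectors of) partitions of `{0, …, n-1}`, with labels smaller
than `n`. -/
def WF (n : ℕ) (Xs : List (List ℕ)) : Prop :=
  Xs ≠ [] ∧ ∀ X ∈ Xs, X.length = n ∧ ∀ l ∈ X, l < n

/-- The decision problem: is there a partition `Y` of `{0, …, n-1}` for which the sum of the distances
to the given partitions is at most the given number? -/
def PartitionMedian (I : List (List ℕ) × ℕ) : Prop :=
  ∃ n, WF n I.1 ∧ ∃ Y : Setoid (Fin n), cost n I.1 Y ≤ I.2

theorem small_ren3 (φ : F3) : Small (ren3 φ) := by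
  have hlen : (vars3 φ).length = 3 * φ.length := by
    unfold vars3
    rw [List.length_flatMap]
    simp [mul_comm]
  have hg : gg (ren3 φ) = 3 * φ.length + 1 := by
    unfold gg ren3
    rw [List.length_map]
  have key : ∀ v ∈ vars3 φ, index (vars3 φ) v < gg (ren3 φ) := by
    intro v hv
    have h := getElem?_index hv
    have := (List.getElem?_eq_some_iff.1 h).1
    omega
  intro c hc
  unfold ren3 at hc
  rw [List.mem_map] at hc
  obtain ⟨d, hd, rfl⟩ := hc
  obtain ⟨h1, h2, h3⟩ := mem_vars3 hd
  exact ⟨key _ h1, key _ h2, key _ h3⟩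

/-- 3SAT with different variables in each clause and small names of variables. -/
theorem hardPr : HardPr (fun φ : F3 => Distinct3 φ ∧ Small φ) SAT3 :=
  hardPr_SAT3.trans (f := ren3 (V := ℕ)) ren3_poly
    (fun φ h => ⟨ren3_distinct h, small_ren3 φ⟩) (fun φ _ => ren3_sat φ)

theorem rlab_lt {g t1 t2 t3 x1 x2 x3 : ℕ} (h1 : t1 < 4 * g) (h2 : t2 < 4 * g) (h3 : t3 < 4 * g)
    (e1 : t1 = 4 * x1 ∨ t1 = 4 * x1 + 1) (e2 : t2 = 4 * x2 ∨ t2 = 4 * x2 + 1)
    (e3 : t3 = 4 * x3 ∨ t3 = 4 * x3 + 1) {u : ℕ} (hu : u < 4 * g) :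
    rlab t1 t2 t3 u < 4 * g := by
  unfold rlab
  split_ifs <;> omega

theorem wf_inst (φ : F3) (hs : Small φ) : WF (4 * gg φ) (inst φ) := by
  constructor
  · unfold inst al
    simp [List.replicate_succ]
  · intro X hX
    unfold inst at hX
    rw [List.mem_append, List.mem_append, List.mem_append] at hX
    rcases hX with hX | hX | hX | hX
    · rw [List.mem_replicate] at hX
      rw [hX.2]
      refine ⟨by simp [vst], fun l hl => ?_⟩
      simp only [vst, List.mem_map, List.mem_range] at hl
      obtain ⟨u, hu, rfl⟩ := hl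
      exact lab_lt _ hu
    · rw [List.mem_replicate] at hX
      rw [hX.2]
      refine ⟨by simp [vst], fun l hl => ?_⟩
      simp only [vst, List.mem_map, List.mem_range] at hl
      obtain ⟨u, hu, rfl⟩ := hl
      exact lab_lt _ hu
    · rw [List.mem_replicate] at hX
      rw [hX.2]
      refine ⟨by simp, fun l hl => ?_⟩
      simpa using hl
    · rw [List.mem_flatMap] at hX
      obtain ⟨c, hc, hX⟩ := hX
      rw [List.mem_map] at hX
      obtain ⟨k, _, rfl⟩ := hX
      obtain ⟨b1, b2, b3⟩ := hs c hc
      refine ⟨by simp [rvc, rv], fun l hl => ?_⟩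
      simp only [rvc, rv, List.mem_map, List.mem_range] at hl
      obtain ⟨u, hu, rfl⟩ := hl
      have e1 := S_eq (xor c.1.1 k.1) c.1.2
      have e2 := S_eq (xor c.2.1.1 k.2.1) c.2.1.2
      have e3 := S_eq (xor c.2.2.1 k.2.2) c.2.2.2
      exact rlab_lt (by omega) (by omega) (by omega) e1 e2 e3 hu

theorem eq_of_wf {φ : F3} {n : ℕ} (h : WF n (inst φ)) : n = 4 * gg φ := by
  have h1 : vst (gg φ) (fun _ => true) ∈ inst φ := by
    unfold inst al
    simp [List.replicate_succ]
  have := (h.2 _ h1).1
  rw [← this]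
  simp [vst]

theorem hardPr_median : HardPr (fun _ => True) PartitionMedian := by
  refine hardPr.trans (f := fun φ => (inst φ, thr φ)) (NPC.Poly.pair poly_inst poly_thr)
    (fun _ _ => trivial) (fun φ hφ => ?_)
  obtain ⟨hd, hs⟩ := hφ
  constructor
  · rintro ⟨τ, hτ⟩
    exact ⟨4 * gg φ, wf_inst φ hs, _, upper φ hd hs τ hτ⟩
  · rintro ⟨n, hn, Y, hY⟩
    obtain rfl := eq_of_wf hn
    classical
    refine ⟨fun x => decide (∃ h : x < gg φ, Y ((gad (gg φ)).a ⟨x, h⟩) ((gad (gg φ)).b ⟨x, h⟩)), ?_⟩
    by_contra hcon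
    push Not at hcon
    obtain ⟨c, hc, hc1⟩ := hcon
    have := lower φ hd hs Y
      (fun x => decide (∃ h : x < gg φ, Y ((gad (gg φ)).a ⟨x, h⟩) ((gad (gg φ)).b ⟨x, h⟩)))
      (fun x => by simp) ⟨c, hc, by
        unfold Tr
        rintro (h | h | h)
        · exact hc1.1 h
        · exact hc1.2.1 h
        · exact hc1.2.2 h⟩
    exact absurd hY (not_le.2 this)

/-- the assignment read off from a label vector -/
def asg (Y : List ℕ) (x : ℕ) : Bool := decide (Y.getD (4 * x) 0 = Y.getD (4 * x + 1) 0)

/-- all clauses are satisfied by the assignment read off from a label vector -/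
def test (p : F3 × List ℕ) : Bool :=
  p.1.all (fun c => (decide (asg p.2 c.1.2 = c.1.1) || (decide (asg p.2 c.2.1.2 = c.2.1.1) ||
    decide (asg p.2 c.2.2.2 = c.2.2.1))))

@[fun_prop]
theorem poly_asg {α : Type} [TEnc α] {Y : α → List ℕ} {x : α → ℕ} (hY : NPC.Poly Y)
    (hx : NPC.Poly x) : NPC.Poly (fun a => asg (Y a) (x a)) := by
  unfold asg
  fun_prop

theorem poly_test : NPC.Poly test := by
  unfold test
  fun_prop

theorem test_iff (φ : F3) (Y : List ℕ) : test (φ, Y) = true ↔ ∀ c ∈ φ, Tr (asg Y) c := by
  unfold test Tr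
  simp [List.all_eq_true]

/-- **The partition median problem is NP-hard.** -/
theorem result :
    NPHardP PartitionMedian ∧
    ((∃ F : List Bool → List Bool, PolyTime F ∧
        ∀ (n : ℕ) (Xs : List (List ℕ)), WF n Xs →
          ∃ Y : List ℕ, F (bits Xs) = bits Y ∧ Y.length = n ∧
            ∀ Z : Setoid (Fin n), cost n Xs (part n Y) ≤ cost n Xs Z) →
      ∀ L : Set (List Bool), InNP L → InP L) := by
  refine ⟨hardPr_median.toHardI.toNPHardP, ?_⟩
  rintro ⟨F, hF, hopt⟩
  have h1 : PC (bits : F3 → List Bool) (fun x : List Bool => x) (fun φ => bits (inst φ)) := by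
    obtain ⟨c, p, h⟩ := poly_inst
    exact ⟨c, p, h⟩
  have h2 : PC (bits : F3 → List Bool) (fun x : List Bool => x) (fun φ => F (bits (inst φ))) :=
    PC.comp (g := F) (f := fun φ => bits (inst φ)) (H642R2.TMSim.polyTime_toPC hF) h1
  have h3 : NPC.Poly (fun φ : F3 => F (bits (inst φ))) :=
    PC.comp (g := fun x => x) (f := fun φ => F (bits (inst φ))) PC.rawIn h2
  have h4 : NPC.Poly (fun φ : F3 => unbits (List ℕ) (F (bits (inst φ)))) :=
    poly_unbits.comp h3
  refine hardPr.collapse (d := fun φ => (unbits (List ℕ) (F (bits (inst φ)))).elim false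
    (fun Y => test (φ, Y))) (NPC.Poly.optElim (h := fun φ Y => test (φ, Y)) h4
      (NPC.Poly.const _) poly_test) (fun φ hφ => ?_)
  obtain ⟨hd, hs⟩ := hφ
  obtain ⟨Y, hY, hlen, hmin⟩ := hopt _ _ (wf_inst φ hs)
  rw [hY, unbits_bits, Option.elim_some, test_iff]
  constructor
  · rintro ⟨τ, hτ⟩
    by_contra hcon
    push Not at hcon
    have hlow := lower φ hd hs (part (4 * gg φ) Y) (asg Y) (fun x => by
      unfold asg
      rw [decide_eq_true_iff]
      rfl) hcon
    have hup := upper φ hd hs τ hτ
    have := hmin (part _ (vst (gg φ) τ))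
    omega
  · intro h
    exact ⟨_, h⟩

end Pool.Agent.Results.MP_3853ed_lc.MedianHard
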